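import Pool.Agent.H.MP_567c26_al.E
import Pool.Agent.Lib.helper21.Queue
import Pool.Agent.Lib.helper21.CPred

namespace Pool.Agent.Results.MP_567c26_al.Undec

open Pool.Agent.H.MP_567c26_al Pool.Agent.Lib.helper21

theorem result (P : Prop) : ¬∃ f : Code → Bool, Computable f ∧
    ∀ (c : Code) (S : Type) [Semigroup S], Quasi c S → (f c = true ↔ Automatic P S) := by
  rintro ⟨f, hf, h⟩
  obtain ⟨Q, _, M, q, hM⟩ := Queue.exists_cm0
  obtain ⟨K, hK⟩ := (Set.finite_range M.reg).bddAbove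
  obtain ⟨k, ⟨e⟩⟩ := Finite.exists_equiv_fin Q
  let _ := Primcodable.ofEquiv _ e
  let D : Dat Q (K + 1) := ⟨M, fun q => ⟨M.reg q, Nat.lt_succ_of_le (hK ⟨q, rfl⟩)⟩, q, 0,
    fun _ => rfl, rfl⟩
  obtain ⟨c, a, b⟩ := quasi D
  refine hM (ComputablePred.computable_iff.2 ⟨fun n => f (c n), hf.comp a.to_comp,
    funext fun n => propext ?_⟩)
  rw [h _ _ (b n)]
  exact ⟨auto D n P, fun g => by_contra fun g' => not_auto (D := D) g' g⟩

end Pool.Agent.Results.MP_567c26_al.Undec
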